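import Pool.Agent.W313.Hyp.Loc

/-!
The identity modulo two for the `L`-function of a hyperelliptic curve.
-/

set_option autoImplicit false
set_option linter.all false
set_option maxHeartbeats 4000000

open PowerSeries FF Module

namespace Pool.Agent.W313.Hyp

open Pool.Agent.W343.BSD Pool.Agent.H123R3.ZT

section glob

variable {k K : Type} [Field k] [Finite k] [Field K] [Algebra k K] [FF.IsFF k K] {ι : Type}
  [Fintype ι] {L : ι → Type} [∀ i, Field (L i)] [∀ i, Algebra k (L i)] [∀ i, Algebra K (L i)]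
  [∀ i, IsScalarTower k K (L i)]

/-- The product over the closed points of the affine line over the places outside `S0`, for the
reductions `h v` of the models. -/
noncomputable def LS (S0 : Finset (Place k K)) (h : ∀ v : Place k K, Polynomial v.RF) :
    PowerSeries ℤ :=
  eulerProd (fun z : (Σ v : {v : Place k K // v ∉ S0}, MI v.1.RF) => z.1.1.deg * z.2.1.natDegree)
    (fun z => ptFactor (h z.1.1) z.1.1.deg z.2)

theorem finite_RF (v : Place k K) : Finite v.RF := by
  have hvfin : Module.Finite k v.RF := Module.finite_of_finrank_pos (deg_pos' v)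
  exact Module.finite_of_finite k

theorem LS_eq (S0 : Finset (Place k K)) (h : ∀ v : Place k K, Polynomial v.RF)
    [DecidablePred fun v : Place k K => v ∉ S0] :
    LS S0 h = eulerProd (fun v : Place k K => v.deg)
      (fun v => if v ∉ S0 then locA (h v) v.deg else 1) := by
  have hfv : ∀ v : Place k K, Finite v.RF := finite_RF
  unfold LS
  rw [eulerProd_sigma (ι := {v : Place k K // v ∉ S0}) (κ := fun v => MI v.1.RF)
    (d := fun v => v.1.deg) (e := fun v P => P.1.natDegree)
    (fun n => Set.Finite.of_finite_image (f := fun i : {v : Place k K // v ∉ S0} => i.1)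
      ((places_fin n).subset (by rintro _ ⟨i, hi, rfl⟩; exact hi))
      (Set.injOn_of_injective Subtype.val_injective))
    (fun v => deg_pos' v.1) (fun v n => finite_deg_le n) (fun v P => MI.deg_pos P) _
    (fun p => ptFactor_dvd _ _ _)]
  exact eulerProd_subtype (fun v : Place k K => v ∉ S0) (d := fun v => v.deg)
    (fun n => places_fin n) (f := fun v => locA (h v) v.deg)
    (fun v _ => locA_dvd (h v) (deg_pos' v))

theorem card_RF (hq : ((Nat.card k : ℕ) : ZMod 2) = 1) (v : Place k K) :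
    ((Nat.card v.RF : ℕ) : ZMod 2) = 1 := by
  have hvfin : Module.Finite k v.RF := Module.finite_of_finrank_pos (deg_pos' v)
  rw [Module.natCard_eq_pow_finrank (K := k) (V := v.RF)]
  push_cast
  rw [hq, one_pow]

open Classical in
theorem glob_identity (hq : ((Nat.card k : ℕ) : ZMod 2) = 1) {f : Polynomial K} {θ : ∀ i, L i}
    (hF : IsFam f θ) [∀ i, FF.IsFF k (L i)]
    {PK : Polynomial ℤ} (hPK : IsZetaNumRel k K PK) (hrK : constDeg k K = 1)
    {PL : ι → Polynomial ℤ} (hPL : ∀ i, IsZetaNumRel k (L i) (PL i))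
    {S : Place k K → ∀ i, Finset (Place k (L i))} {e d : Place k K → (Σ i, Place k (L i)) → ℕ}
    (D : ∀ v, FiberData v (S v) (e v) (d v)) (S0 T : Finset (Place k K)) (hST : S0 ⊆ T)
    (h : ∀ v : Place k K, Polynomial v.RF) (h0 : ∀ v, v ∉ S0 → h v ≠ 0)
    (hgood : ∀ v, v ∉ T → ∀ φ : ℕ → PowerSeries (ZMod 2),
      ∏ i, ∏ w ∈ S v i, φ w.deg = ∏ P ∈ facs (h v), φ (v.deg * P.1.natDegree)) :
    (∏ i, (1 + X ^ constDeg k (L i)) ^ 2) * (PK.map (Int.castRingHom (ZMod 2)) :
        PowerSeries (ZMod 2)) * red2 (LS S0 h) * (∏ v ∈ S0, (1 + X ^ v.deg)) *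
      (∏ v ∈ T \ S0, ∏ P ∈ facs (h v), (1 + X ^ (v.deg * P.1.natDegree))) =
    (1 + X) ^ 2 * (∏ i, ((PL i).map (Int.castRingHom (ZMod 2)) : PowerSeries (ZMod 2))) *
      ∏ v ∈ T, ∏ i, ∏ w ∈ S v i, (1 + X ^ w.deg) := by
  have hfv : ∀ v : Place k K, Finite v.RF := finite_RF
  have hfd := hF.fd
  set Φ : Place k K → PowerSeries (ZMod 2) := fun v => ∏ i, ∏ w ∈ S v i, (1 + X ^ w.deg) with hΦ
  set W : Place k K → PowerSeries (ZMod 2) :=
    fun v => red2 (if v ∉ S0 then locA (h v) v.deg else 1) with hW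
  set Z : Place k K → PowerSeries (ZMod 2) := fun v => 1 + X ^ v.deg with hZ
  set R : Place k K → PowerSeries (ZMod 2) :=
    fun v => ∏ P ∈ facs (h v), (1 + X ^ (v.deg * P.1.natDegree)) with hR
  have hΦ0 : ∀ i v, (X : PowerSeries (ZMod 2)) ^ v.deg ∣ (∏ w ∈ S v i, (1 + X ^ w.deg)) - 1 := by
    intro i v
    have h := prod_congr_mod (S v i) (fun w => (1 + X ^ w.deg : PowerSeries (ZMod 2)))
      (fun _ => 1) v.deg (fun w hw => dvd_one_add (by
        rw [(D v).deg i w hw]
        exact Nat.le_mul_of_pos_right _ ((D v).pos i w hw)))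
    rwa [Finset.prod_const_one] at h
  have hΦ1 : ∀ v, (X : PowerSeries (ZMod 2)) ^ v.deg ∣ Φ v - 1 := by
    intro v
    have h := prod_congr_mod Finset.univ (fun i => ∏ w ∈ S v i, (1 + X ^ w.deg : PowerSeries (ZMod 2)))
      (fun _ => 1) v.deg (fun i _ => hΦ0 i v)
    rwa [Finset.prod_const_one] at h
  have hloc : ∀ v : Place k K,
      (X : PowerSeries ℤ) ^ v.deg ∣ (if v ∉ S0 then locA (h v) v.deg else 1) - 1 := by
    intro v
    split_ifs with hv
    · rw [sub_self]; exact dvd_zero _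
    · exact locA_dvd (h v) (deg_pos' v)
  have hW1 : ∀ v, (X : PowerSeries (ZMod 2)) ^ v.deg ∣ W v - 1 := by
    intro v
    have h3 := map_dvd red2 (hloc v)
    rwa [map_sub, map_one, map_pow, PowerSeries.map_X] at h3
  have hZ1 : ∀ v, (X : PowerSeries (ZMod 2)) ^ v.deg ∣ Z v - 1 := fun v => dvd_one_add le_rfl
  have hWR : ∀ v, v ∉ S0 → W v * R v = Z v := by
    intro v hv
    rw [hW, hR, hZ]
    show red2 (if v ∉ S0 then locA (h v) v.deg else 1) * _ = _
    rw [if_pos hv]
    exact locA_mod (card_RF hq v) (h0 v hv) (deg_pos' v)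
  have hWS : ∀ v, v ∈ S0 → W v = 1 := by
    intro v hv
    show red2 (if v ∉ S0 then locA (h v) v.deg else 1) = 1
    rw [if_neg (not_not.2 hv), map_one]
  have hLS : red2 (LS S0 h) = eulerProd (fun v : Place k K => v.deg) W := by
    rw [LS_eq S0 h, map_eulerProd (fun n => places_fin n)]
  have hgood' : ∀ v, v ∉ T → Φ v * W v = Z v := by
    intro v hv
    have hv0 : v ∉ S0 := fun h => hv (hST h)
    rw [← hWR v hv0, mul_comm]
    congr 1
    exact hgood v hv (fun n => 1 + X ^ n)
  have key := fin_factor (F := fun v => Φ v * W v) (W := Z) (fun n => places_fin n)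
    (fun v => one_mod_mul (hΦ1 v) (hW1 v)) hZ1 T hgood'
  have hEΦ : eulerProd (fun v : Place k K => v.deg) Φ =
      ∏ i, eulerProd (fun w : Place k (L i) => w.deg) (fun w => (1 + X ^ w.deg : PowerSeries (ZMod 2))) := by
    rw [hΦ, eulerProd_prod (fun n => places_fin n) Finset.univ
      (fun i v => ∏ w ∈ S v i, (1 + X ^ w.deg : PowerSeries (ZMod 2))) (fun i v => hΦ0 i v)]
    exact Finset.prod_congr rfl fun i _ => zeta_fiber i D
  rw [eulerProd_mul (fun n => places_fin n) hΦ1 hW1, hEΦ, ← hLS] at key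
  have hK := num_mod hq hPK
  rw [hrK, pow_one] at hK
  have hLi := fun i => num_mod hq (hPL i)
  have hprod : (∏ i, ((PL i).map (Int.castRingHom (ZMod 2)) : PowerSeries (ZMod 2))) *
      ∏ i, eulerProd (fun w : Place k (L i) => w.deg) (fun w => (1 + X ^ w.deg : PowerSeries (ZMod 2))) =
      ∏ i, (1 + X ^ constDeg k (L i)) ^ 2 := by
    rw [← Finset.prod_mul_distrib, Finset.prod_congr rfl (fun i _ => hLi i)]
  have hZne : ∀ v, Z v ≠ 0 := by
    intro v hv
    have h1 := congrArg (constantCoeff (R := ZMod 2)) hv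
    rw [hZ] at h1
    simp [(deg_pos' v).ne'] at h1
  have hsplit : ∀ G : Place k K → PowerSeries (ZMod 2),
      ∏ v ∈ T, G v = (∏ v ∈ S0, G v) * ∏ v ∈ T \ S0, G v := by
    intro G
    rw [mul_comm, Finset.prod_sdiff hST]
  have hTW : ∏ v ∈ T, (Φ v * W v) = (∏ v ∈ T, Φ v) * ∏ v ∈ T \ S0, W v := by
    rw [Finset.prod_mul_distrib, hsplit W, Finset.prod_eq_one (fun v hv => hWS v hv), one_mul]
  have hRW : (∏ v ∈ T \ S0, W v) * (∏ v ∈ T \ S0, R v) = ∏ v ∈ T \ S0, Z v := by
    rw [← Finset.prod_mul_distrib]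
    exact Finset.prod_congr rfl fun v hv => hWR v (Finset.mem_sdiff.1 hv).2
  have hZT : ∏ v ∈ T \ S0, Z v ≠ 0 := Finset.prod_ne_zero_iff.2 fun v _ => hZne v
  rw [hTW, hsplit Z] at key
  -- cancel
  have key2 : (∏ i, eulerProd (fun w : Place k (L i) => w.deg)
      (fun w => (1 + X ^ w.deg : PowerSeries (ZMod 2)))) * red2 (LS S0 h) *
      (∏ v ∈ S0, Z v) * (∏ v ∈ T \ S0, R v) =
      eulerProd (fun v : Place k K => v.deg) Z * ∏ v ∈ T, Φ v := by
    apply mul_right_cancel₀ hZT
    linear_combination (∏ v ∈ T \ S0, R v) * key +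
      eulerProd (fun v : Place k K => v.deg) Z * (∏ v ∈ T, Φ v) * hRW
  rw [← hprod, ← hK]
  linear_combination (∏ i, ((PL i).map (Int.castRingHom (ZMod 2)) : PowerSeries (ZMod 2))) *
    (PK.map (Int.castRingHom (ZMod 2)) : PowerSeries (ZMod 2)) * key2

end glob

end Pool.Agent.W313.Hyp
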