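import Pool.Agent.W343.BSD.Stmt
import Pool.Agent.W313.Hyp.Glob

/-!
The notions used in the statement on hyperelliptic curves over function fields.
-/

set_option autoImplicit false
set_option linter.all false
set_option maxHeartbeats 4000000

open Polynomial

namespace Pool.Agent.W313.Hyp

open Pool.Agent.W343.BSD

section general

/-- The monic irreducible polynomials over a field: the closed points of the affine line. -/
abbrev ClosedPt (F : Type) [Field F] : Type := {P : F[X] // P.Monic ∧ Irreducible P}

variable {F : Type} [Field F]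

/-- The polynomial `∑ ρ(g_i) x ^ i` for `g = ∑ g_i x ^ i`. -/
noncomputable def mapCoeff {K : Type} [Field K] (ρ : K → F) (g : K[X]) : F[X] :=
  ∑ i ∈ Finset.range (g.natDegree + 1), monomial i (ρ (g.coeff i))

/-- The polynomial is not divisible by the cube of an irreducible polynomial. -/
def CubeFree (h : F[X]) : Prop := ∀ P : ClosedPt F, ¬ P.1 ^ 3 ∣ h

/-- The sum of the two-parts of `d * deg P` over the monic irreducible factors `P` of `h`. -/
noncomputable def zeroSum (d : ℕ) (h : F[X]) : ℕ :=
  ∑ᶠ (P : ClosedPt F) (_ : P.1 ∣ h), twoPart (d * P.1.natDegree)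

/-- The degree of a closed point. -/
noncomputable def ptDegree (P : ClosedPt F) : ℕ := P.1.natDegree

end general

section defs

variable {k K : Type} [Field k] [Field K] [Algebra k K]

/-- The reduction of `g` at `v`: the polynomial over the residue field of `v` whose coefficients are
the residue classes of the coefficients of `g`. -/
noncomputable def redPoly (v : FF.Place k K) (g : K[X]) : (S.Res v)[X] := mapCoeff (S.red v) g

/-- `y ^ 2 = g(x)` is a semistable model at `v`: `g` has coefficients regular at `v` and its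
reduction is not divisible by the cube of an irreducible polynomial. -/
def IsSemistable (v : FF.Place k K) (g : K[X]) : Prop :=
  (∀ i, v.Reg (g.coeff i)) ∧ CubeFree (redPoly v g)

/-- The closed points of the affine lines over the residue fields of the places outside `A`. -/
structure PtOutside (A : Finset (FF.Place k K)) : Type where
  place : FF.Place k K
  outside : place ∉ A
  pt : ClosedPt (S.Res place)

/-- The degree over `k` of a closed point. -/
noncomputable def PtOutside.deg {A : Finset (FF.Place k K)} (z : PtOutside A) : ℕ :=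
  S.deg z.place * ptDegree z.pt

/-- The factor `1 - chi(P) T ^ deg` at the closed point `P` over the place `v`, where `chi(P)` is the
quadratic character modulo `P` of the reduction of the model `u ^ (-2 n) f(u ^ 2 x + r)` at `v`. -/
noncomputable def factorAt {A : Finset (FF.Place k K)} (f : K[X]) (u r : FF.Place k K → K)
    (z : PtOutside A) : PowerSeries ℤ :=
  ptFactor (redPoly z.place (model f (u z.place) (r z.place))) (S.deg z.place) z.pt

/-- The `L`-function of the Jacobian of `y ^ 2 = f(x)` without the Euler factors at the places in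
`A`: the product over the places `v` outside `A` and the closed points `P` of the affine line over
the residue field of `v` of `1 - chi(P) T ^ (deg v * deg P)`. -/
noncomputable def LOutside (A : Finset (FF.Place k K)) (f : K[X]) (u r : FF.Place k K → K) :
    PowerSeries ℤ :=
  eulerProd (fun z : PtOutside A => z.deg) (factorAt f u r)

/-- `LOutside` is `(1 - q T) ^ m * G / H` with integral polynomials `G` and `H`. -/
def HasOrder (A : Finset (FF.Place k K)) (f : K[X]) (u r : FF.Place k K → K) (m : ℕ)
    (G H : ℤ[X]) : Prop :=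
  LOutside A f u r * (H : PowerSeries ℤ) =
    (((1 - Polynomial.C (Nat.card k : ℤ) * Polynomial.X) ^ m * G : ℤ[X]) : PowerSeries ℤ)

/-- The place `w` lies over the place `v`. -/
def LiesOver {L : Type} [Field L] [Algebra k L] [Algebra K L] (w : FF.Place k L)
    (v : FF.Place k K) : Prop :=
  ∃ e : ℕ, 0 < e ∧ ∀ x : K, w.ord (algebraMap K L x) = e * v.ord x

/-- The sum of the two-parts of the degrees of the places over `v` of the fields `L i`. -/
noncomputable def aboveTerm {ι : Type} [Fintype ι] (L : ι → Type) [∀ i, Field (L i)]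
    [∀ i, Algebra k (L i)] [∀ i, Algebra K (L i)] (v : FF.Place k K) : ℕ :=
  ∑ i, ∑ᶠ (w : FF.Place k (L i)) (_ : LiesOver w v), twoPart (S.deg w)

/-- The sum of the two-parts of the degrees of the closed points over `v` at which `h` vanishes. -/
noncomputable def zeroTerm (v : FF.Place k K) (g : K[X]) : ℕ := zeroSum (S.deg v) (redPoly v g)

end defs

section bridge

variable {k K : Type} [Field k] [Finite k] [Field K] [Algebra k K] [FF.IsFF k K]

theorem redPoly_eq (v : FF.Place k K) (g : K[X]) :
    redPoly v g = ∑ i ∈ Finset.range (g.natDegree + 1), monomial i (v.red (g.coeff i)) := rfl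

theorem exists_lift (v : FF.Place k K) {g : K[X]} (hg : ∀ i, v.Reg (g.coeff i)) :
    ∃ F : v.O[X], F.map v.O.subtype = g ∧ F.map v.resHom = redPoly v g := by
  refine ⟨∑ i ∈ Finset.range (g.natDegree + 1), monomial i (⟨g.coeff i, hg i⟩ : v.O), ?_, ?_⟩
  · rw [Polynomial.map_sum]
    conv_rhs => rw [g.as_sum_range]
    refine Finset.sum_congr rfl fun i _ => ?_
    rw [Polynomial.map_monomial]
    rfl
  · rw [Polynomial.map_sum, redPoly_eq]
    refine Finset.sum_congr rfl fun i _ => ?_
    rw [Polynomial.map_monomial, v.red_of_reg (hg i)]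

/-- the two descriptions of the closed points -/
def ptEquiv (A : Finset (FF.Place k K)) :
    PtOutside A ≃ (Σ v : {v : FF.Place k K // v ∉ A}, MI v.1.RF) where
  toFun z := ⟨⟨z.place, z.outside⟩, z.pt⟩
  invFun y := ⟨y.1.1, y.1.2, y.2⟩
  left_inv _ := rfl
  right_inv _ := rfl

theorem pts_finite (A : Finset (FF.Place k K)) (n : ℕ) :
    {y : (Σ v : {v : FF.Place k K // v ∉ A}, MI v.1.RF) |
      y.1.1.deg * y.2.1.natDegree ≤ n}.Finite := by
  have hfv : ∀ v : FF.Place k K, Finite v.RF := finite_RF
  exact sigma_finite (ι := {v : FF.Place k K // v ∉ A}) (κ := fun v => MI v.1.RF)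
    (d := fun v => v.1.deg) (e := fun v P => P.1.natDegree)
    (fun n => Set.Finite.of_finite_image (f := fun i : {v : FF.Place k K // v ∉ A} => i.1)
      ((places_fin n).subset (by rintro _ ⟨i, hi, rfl⟩; exact hi))
      (Set.injOn_of_injective Subtype.val_injective))
    (fun v => deg_pos' v.1) (fun v n => finite_deg_le n) (fun v P => MI.deg_pos P) n

theorem LOutside_eq (A : Finset (FF.Place k K)) (f : K[X]) (u r : FF.Place k K → K) :
    LOutside A f u r = LS A (fun v => redPoly v (model f (u v) (r v))) := by
  have h1 := eulerProd_equiv (R := ℤ) (ptEquiv A) (fun y => y.1.1.deg * y.2.1.natDegree)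
    (pts_finite A) (fun y => ptFactor (F := y.1.1.RF)
      (redPoly y.1.1 (model f (u y.1.1) (r y.1.1))) y.1.1.deg y.2)
  unfold LS
  refine Eq.trans ?_ h1
  unfold LOutside
  have e1 : (fun z : PtOutside A => z.deg) = fun z => (ptEquiv A z).1.1.deg *
      (ptEquiv A z).2.1.natDegree := by
    funext z
    show S.deg z.place * z.pt.1.natDegree = _
    rw [S.deg_eq]
    rfl
  have e2 : factorAt (A := A) f u r = fun z => ptFactor (F := (ptEquiv A z).1.1.RF)
      (redPoly (ptEquiv A z).1.1 (model f (u (ptEquiv A z).1.1) (r (ptEquiv A z).1.1)))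
      (ptEquiv A z).1.1.deg (ptEquiv A z).2 := by
    funext z
    unfold factorAt
    rw [S.deg_eq]
    rfl
  rw [e1, e2]

variable {ι : Type} [Fintype ι] {L : ι → Type} [∀ i, Field (L i)] [∀ i, Algebra k (L i)]
  [∀ i, Algebra K (L i)] [∀ i, IsScalarTower k K (L i)]

theorem aboveTerm_eq [∀ i, FF.IsFF k (L i)] {v : FF.Place k K} {S' : ∀ i, Finset (FF.Place k (L i))}
    {e d : (Σ i, FF.Place k (L i)) → ℕ} (D : FiberData v S' e d) :
    aboveTerm L v = ∑ i, ∑ w ∈ S' i, twoPart w.deg := by
  classical
  unfold aboveTerm
  refine Finset.sum_congr rfl fun i _ => ?_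
  have h1 : ∀ w : FF.Place k (L i), LiesOver w v ↔ w ∈ S' i := fun w =>
    ⟨fun ⟨e', he⟩ => D.mem i w e' he, fun hw => ⟨_, D.isOver i w hw⟩⟩
  simp only [h1, S.deg_eq]
  exact finsum_mem_coe_finset (fun w : FF.Place k (L i) => twoPart w.deg) (S' i)

/-- the monic irreducible factors over the residue field -/
noncomputable def facs' (v : FF.Place k K) (h : v.RF[X]) : Finset (MI v.RF) :=
  haveI := finite_RF v
  facs h

theorem zeroTerm_eq (v : FF.Place k K) {g : K[X]} {h : v.RF[X]} (hg : redPoly v g = h)
    (h0 : h ≠ 0) :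
    zeroTerm v g = ∑ P ∈ facs' v h, twoPart (v.deg * P.1.natDegree) := by
  classical
  have hfin : Finite v.RF := finite_RF v
  have h1 : ∀ P : MI v.RF, (P.1 ∣ h) = (P ∈ facs' v h) := fun P =>
    propext (mem_facs h0 P).symm
  have h2 : zeroTerm v g =
      ∑ᶠ (P : MI v.RF) (_ : P.1 ∣ h), twoPart (v.deg * P.1.natDegree) := by
    unfold zeroTerm zeroSum
    rw [hg, S.deg_eq]
    rfl
  rw [h2]
  have h3 : (fun P : MI v.RF => ∑ᶠ (_ : P.1 ∣ h), twoPart (v.deg * P.1.natDegree)) =
      fun P : MI v.RF => ∑ᶠ (_ : P ∈ facs' v h), twoPart (v.deg * P.1.natDegree) :=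
    funext fun P => by rw [h1 P]
  rw [h3]
  exact finsum_mem_coe_finset (fun P : MI v.RF => twoPart (v.deg * P.1.natDegree)) (facs' v h)

end bridge

end Pool.Agent.W313.Hyp
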