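import Pool.Agent.W313.Hyp.Stmt

/-!
The bound for the order of vanishing.
-/

set_option autoImplicit false
set_option linter.all false
set_option maxHeartbeats 4000000

open PowerSeries FF Module

namespace Pool.Agent.W313.Hyp

open Pool.Agent.W343.BSD Pool.Agent.H123R3.ZT

theorem coe_zf' (n : ℕ) : ((1 + Polynomial.X ^ n : Polynomial (ZMod 2)) : PowerSeries (ZMod 2)) =
    1 + X ^ n := coe_zf n

theorem coe_one_X : ((1 + Polynomial.X : Polynomial (ZMod 2)) : PowerSeries (ZMod 2)) = 1 + X := by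
  rw [Polynomial.coe_add, Polynomial.coe_one, Polynomial.coe_X]

section glob

variable {k K : Type} [Field k] [Finite k] [Field K] [Algebra k K] [FF.IsFF k K] {ι : Type}
  [Fintype ι] {L : ι → Type} [∀ i, Field (L i)] [∀ i, Algebra k (L i)] [∀ i, Algebra K (L i)]
  [∀ i, IsScalarTower k K (L i)]

open Classical in
theorem glob_bound (hq : ((Nat.card k : ℕ) : ZMod 2) = 1) {f : Polynomial K} {θ : ∀ i, L i}
    (hF : IsFam f θ) [∀ i, FF.IsFF k (L i)]
    {PK : Polynomial ℤ} (hPK : IsZetaNumRel k K PK) (hrK : constDeg k K = 1)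
    {PL : ι → Polynomial ℤ} (hPL : ∀ i, IsZetaNumRel k (L i) (PL i))
    {S : Place k K → ∀ i, Finset (Place k (L i))} {e d : Place k K → (Σ i, Place k (L i)) → ℕ}
    (D : ∀ v, FiberData v (S v) (e v) (d v)) (S0 T : Finset (Place k K)) (hST : S0 ⊆ T)
    (h : ∀ v : Place k K, Polynomial v.RF) (h0 : ∀ v, v ∉ S0 → h v ≠ 0)
    (hgood : ∀ v, v ∉ T → ∀ φ : ℕ → PowerSeries (ZMod 2),
      ∏ i, ∏ w ∈ S v i, φ w.deg = ∏ P ∈ facs' v (h v), φ (v.deg * P.1.natDegree))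
    (m : ℕ) (G H : Polynomial ℤ) (hH : H.map (Int.castRingHom (ZMod 2)) ≠ 0)
    (hG : LS S0 h * (H : PowerSeries ℤ) =
      (((1 - Polynomial.C (Nat.card k : ℤ) * Polynomial.X) ^ m * G :
      Polynomial ℤ) : PowerSeries ℤ)) :
    m + mu (PK.map (Int.castRingHom (ZMod 2))) + 2 * ∑ i, twoPart (constDeg k (L i)) +
      ∑ v ∈ S0, twoPart v.deg +
      ∑ v ∈ T \ S0, ∑ P ∈ facs' v (h v), twoPart (v.deg * P.1.natDegree) ≤
      2 + ∑ i, mu ((PL i).map (Int.castRingHom (ZMod 2))) +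
        ∑ v ∈ T, ∑ i, ∑ w ∈ S v i, twoPart w.deg + mu (H.map (Int.castRingHom (ZMod 2))) := by
  have hid := glob_identity hq hF hPK hrK hPL D S0 T hST h h0 hgood
  set GG : Polynomial (ZMod 2) := G.map (Int.castRingHom (ZMod 2)) with hGG
  set HH : Polynomial (ZMod 2) := H.map (Int.castRingHom (ZMod 2)) with hHH
  set PK2 : Polynomial (ZMod 2) := PK.map (Int.castRingHom (ZMod 2)) with hPK2
  have hred : red2 (LS S0 h) * (HH : PowerSeries (ZMod 2)) =
      (((1 + Polynomial.X) ^ m * GG : Polynomial (ZMod 2)) : PowerSeries (ZMod 2)) := by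
    rw [hHH, ← red2_poly, ← map_mul, hG, red2_poly]
    congr 1
    rw [Polynomial.map_mul, Polynomial.map_pow, Polynomial.map_sub, Polynomial.map_one,
      Polynomial.map_mul, Polynomial.map_C, Polynomial.map_X]
    have h3 : (Int.castRingHom (ZMod 2)) (Nat.card k : ℤ) = 1 := by
      rw [eq_intCast, Int.cast_natCast, hq]
    rw [h3, map_one, one_mul, CharTwo.sub_eq_add]
  -- the polynomials
  set A1 : Polynomial (ZMod 2) := ∏ i, (1 + Polynomial.X ^ constDeg k (L i)) ^ 2 with hA1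
  set A2 : Polynomial (ZMod 2) := ∏ v ∈ S0, (1 + Polynomial.X ^ v.deg) with hA2
  set A3 : Polynomial (ZMod 2) := ∏ v ∈ T \ S0, ∏ P ∈ facs' v (h v),
    (1 + Polynomial.X ^ (v.deg * P.1.natDegree)) with hA3
  set B1 : Polynomial (ZMod 2) := ∏ i, (PL i).map (Int.castRingHom (ZMod 2)) with hB1
  set B2 : Polynomial (ZMod 2) := ∏ v ∈ T, ∏ i, ∏ w ∈ S v i, (1 + Polynomial.X ^ w.deg) with hB2
  have eA1 : ((A1 : Polynomial (ZMod 2)) : PowerSeries (ZMod 2)) =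
      ∏ i, (1 + X ^ constDeg k (L i)) ^ 2 := by
    rw [hA1, coe_prod]
    refine Finset.prod_congr rfl fun i _ => ?_
    rw [Polynomial.coe_pow, coe_zf']
  have eA2 : ((A2 : Polynomial (ZMod 2)) : PowerSeries (ZMod 2)) = ∏ v ∈ S0, (1 + X ^ v.deg) := by
    rw [hA2, coe_prod]
    exact Finset.prod_congr rfl fun v _ => coe_zf' _
  have eA3 : ((A3 : Polynomial (ZMod 2)) : PowerSeries (ZMod 2)) =
      ∏ v ∈ T \ S0, ∏ P ∈ facs' v (h v), (1 + X ^ (v.deg * P.1.natDegree)) := by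
    rw [hA3, coe_prod]
    refine Finset.prod_congr rfl fun v _ => ?_
    rw [coe_prod]
    exact Finset.prod_congr rfl fun P _ => coe_zf' _
  have eB1 : ((B1 : Polynomial (ZMod 2)) : PowerSeries (ZMod 2)) =
      ∏ i, ((PL i).map (Int.castRingHom (ZMod 2)) : PowerSeries (ZMod 2)) := by
    rw [hB1, coe_prod]
  have eB2 : ((B2 : Polynomial (ZMod 2)) : PowerSeries (ZMod 2)) =
      ∏ v ∈ T, ∏ i, ∏ w ∈ S v i, (1 + X ^ w.deg) := by
    rw [hB2, coe_prod]
    refine Finset.prod_congr rfl fun v _ => ?_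
    rw [coe_prod]
    refine Finset.prod_congr rfl fun i _ => ?_
    rw [coe_prod]
    exact Finset.prod_congr rfl fun w _ => coe_zf' _
  have hpoly : A1 * PK2 * A2 * A3 * ((1 + Polynomial.X) ^ m * GG) =
      (1 + Polynomial.X) ^ 2 * B1 * B2 * HH := by
    apply coe_inj2
    rw [Polynomial.coe_mul _ ((1 + Polynomial.X) ^ m * GG), ← hred]
    simp only [Polynomial.coe_mul, Polynomial.coe_pow]
    rw [coe_one_X, eA1, eA2, eA3, eB1, eB2]
    have hid' : (∏ i, (1 + X ^ constDeg k (L i)) ^ 2) * (PK2 : PowerSeries (ZMod 2)) *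
        red2 (LS S0 h) * (∏ v ∈ S0, (1 + X ^ v.deg)) *
        (∏ v ∈ T \ S0, ∏ P ∈ facs' v (h v), (1 + X ^ (v.deg * P.1.natDegree))) =
      (1 + X) ^ 2 * (∏ i, ((PL i).map (Int.castRingHom (ZMod 2)) : PowerSeries (ZMod 2))) *
        ∏ v ∈ T, ∏ i, ∏ w ∈ S v i, (1 + X ^ w.deg) := hid
    linear_combination (HH : PowerSeries (ZMod 2)) * hid'
  have hPK0 : PK2 ≠ 0 := num_ne_zero hq hPK
  have hPL0 := fun i => num_ne_zero hq (hPL i)
  have hne : ∀ n : ℕ, ((1 + Polynomial.X : Polynomial (ZMod 2)) ^ n) ≠ 0 :=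
    fun n => pow_ne_zero n one_add_X_ne
  have hB1' : B1 ≠ 0 := Finset.prod_ne_zero_iff.2 fun i _ => hPL0 i
  have hB2'' : ∀ v ∈ T, ∏ i, ∏ w ∈ S v i, (1 + Polynomial.X ^ w.deg : Polynomial (ZMod 2)) ≠ 0 :=
    fun v _ => Finset.prod_ne_zero_iff.2 fun i _ => Finset.prod_ne_zero_iff.2 fun w _ =>
      one_add_ne (deg_pos' w)
  have hB2' : B2 ≠ 0 := Finset.prod_ne_zero_iff.2 hB2''
  have hA1'' : ∀ i ∈ Finset.univ, (1 + Polynomial.X ^ constDeg k (L i) : Polynomial (ZMod 2)) ^ 2 ≠ 0 :=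
    fun i _ => pow_ne_zero 2 (one_add_ne (constDeg_pos k (L i)))
  have hA1' : A1 ≠ 0 := Finset.prod_ne_zero_iff.2 hA1''
  have hA2'' : ∀ v ∈ S0, (1 + Polynomial.X ^ v.deg : Polynomial (ZMod 2)) ≠ 0 :=
    fun v _ => one_add_ne (deg_pos' v)
  have hA2' : A2 ≠ 0 := Finset.prod_ne_zero_iff.2 hA2''
  have hfac : ∀ (v : Place k K), ∀ P ∈ facs' v (h v),
      (1 + Polynomial.X ^ (v.deg * P.1.natDegree) : Polynomial (ZMod 2)) ≠ 0 :=
    fun v P _ => one_add_ne (Nat.mul_pos (deg_pos' v) (MI.deg_pos P))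
  have hA3'' : ∀ v ∈ T \ S0, ∏ P ∈ facs' v (h v),
      (1 + Polynomial.X ^ (v.deg * P.1.natDegree) : Polynomial (ZMod 2)) ≠ 0 :=
    fun v _ => Finset.prod_ne_zero_iff.2 (hfac v)
  have hA3' : A3 ≠ 0 := Finset.prod_ne_zero_iff.2 hA3''
  have hR : (1 + Polynomial.X) ^ 2 * B1 * B2 * HH ≠ 0 :=
    mul_ne_zero (mul_ne_zero (mul_ne_zero (hne 2) hB1') hB2') hH
  have hL0 : (1 + Polynomial.X) ^ m * GG ≠ 0 := by
    intro h
    rw [h, mul_zero] at hpoly
    exact hR hpoly.symm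
  have hGG0 : GG ≠ 0 := right_ne_zero_of_mul hL0
  have hmu := congrArg mu hpoly
  rw [mu_mul (mul_ne_zero (mul_ne_zero (mul_ne_zero hA1' hPK0) hA2') hA3') hL0,
    mu_mul (mul_ne_zero (mul_ne_zero hA1' hPK0) hA2') hA3', mu_mul (mul_ne_zero hA1' hPK0) hA2',
    mu_mul hA1' hPK0, mu_mul (hne m) hGG0,
    mu_mul (mul_ne_zero (mul_ne_zero (hne 2) hB1') hB2') hH,
    mu_mul (mul_ne_zero (hne 2) hB1') hB2', mu_mul (hne 2) hB1', mu_pow one_add_X_ne,
    mu_pow one_add_X_ne, mu_one_add_X] at hmu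
  have m1 : mu A1 = 2 * ∑ i, twoPart (constDeg k (L i)) := by
    rw [hA1, mu_prod _ _ hA1'', Finset.mul_sum]
    refine Finset.sum_congr rfl fun i _ => ?_
    rw [mu_pow (one_add_ne (constDeg_pos k (L i))), mu_one_add (constDeg_pos k (L i))]
  have m2 : mu A2 = ∑ v ∈ S0, twoPart v.deg := by
    rw [hA2, mu_prod _ _ hA2'']
    exact Finset.sum_congr rfl fun v _ => mu_one_add (deg_pos' v)
  have m3 : mu A3 = ∑ v ∈ T \ S0, ∑ P ∈ facs' v (h v), twoPart (v.deg * P.1.natDegree) := by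
    rw [hA3, mu_prod _ _ hA3'']
    refine Finset.sum_congr rfl fun v _ => ?_
    rw [mu_prod _ _ (hfac v)]
    exact Finset.sum_congr rfl fun P _ => mu_one_add (Nat.mul_pos (deg_pos' v) (MI.deg_pos P))
  have m4 : mu B1 = ∑ i, mu ((PL i).map (Int.castRingHom (ZMod 2))) := by
    rw [hB1, mu_prod _ _ (fun i _ => hPL0 i)]
  have m5 : mu B2 = ∑ v ∈ T, ∑ i, ∑ w ∈ S v i, twoPart w.deg := by
    rw [hB2, mu_prod _ _ hB2'']
    refine Finset.sum_congr rfl fun v hv => ?_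
    rw [mu_prod _ _ (fun i _ => Finset.prod_ne_zero_iff.2 fun w _ => one_add_ne (deg_pos' w))]
    refine Finset.sum_congr rfl fun i _ => ?_
    rw [mu_prod _ _ (fun w _ => one_add_ne (deg_pos' w))]
    exact Finset.sum_congr rfl fun w _ => mu_one_add (deg_pos' w)
  rw [m1, m2, m3, m4, m5] at hmu
  omega

end glob

end Pool.Agent.W313.Hyp
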