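import Pool.Agent.W343.BSD.Euler

/-!
The Euler product over the monic irreducible polynomials over a finite field.
-/

set_option autoImplicit false
set_option linter.all false
set_option maxHeartbeats 1000000

open PowerSeries

namespace Pool.Agent.W313.Hyp

open Pool.Agent.W343.BSD

section

variable (F : Type) [Field F]

/-- The monic irreducible polynomials. -/
abbrev MI : Type := {P : Polynomial F // P.Monic ∧ Irreducible P}

variable {F}

theorem MI.deg_pos (P : MI F) : 0 < P.1.natDegree := P.2.2.natDegree_pos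

/-- The monic polynomials of degree `n`. -/
abbrev Mon (F : Type) [Field F] (n : ℕ) : Type := {g : Polynomial F // g.Monic ∧ g.natDegree = n}

theorem card_mon [Finite F] (n : ℕ) : Nat.card (Mon F n) = Nat.card F ^ n := by
  have h1 := Nat.card_congr (Polynomial.monicEquivDegreeLT (R := F) n)
  have h2 := Nat.card_congr (Polynomial.degreeLTEquiv F n).toEquiv
  unfold Mon
  rw [h1, h2, Nat.card_fun, Nat.card_eq_fintype_card (α := Fin n), Fintype.card_fin]

theorem finite_mon [Finite F] (n : ℕ) : {g : Polynomial F | g.Monic ∧ g.natDegree = n}.Finite := by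
  have h1 := (Polynomial.monicEquivDegreeLT (R := F) n).trans (Polynomial.degreeLTEquiv F n).toEquiv
  have h2 : Finite (Mon F n) := Finite.of_equiv _ h1.symm
  exact h2

theorem finite_deg_le [Finite F] (n : ℕ) : {P : MI F | P.1.natDegree ≤ n}.Finite := by
  have h1 : (⋃ m ∈ Set.Iic n, {g : Polynomial F | g.Monic ∧ g.natDegree = m}).Finite :=
    Set.Finite.biUnion (Set.finite_Iic n) fun m _ => finite_mon m
  refine Set.Finite.of_finite_image (f := fun P : MI F => P.1) (h1.subset ?_)
    (Set.injOn_of_injective Subtype.val_injective)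
  rintro _ ⟨P, hP, rfl⟩
  simp only [Set.mem_iUnion]
  exact ⟨P.1.natDegree, hP, P.2.1, rfl⟩

/-- the monic polynomials of degree `n` all whose prime factors are in `A` -/
def SA (A : Finset (MI F)) (n : ℕ) : Set (Polynomial F) :=
  {g | (g.Monic ∧ g.natDegree = n) ∧ ∀ P : MI F, P.1 ∣ g → P ∈ A}

theorem SA_finite [Finite F] (A : Finset (MI F)) (n : ℕ) : (SA A n).Finite :=
  (finite_mon n).subset fun _ hg => hg.1

theorem eq_of_dvd_MI {P Q : MI F} (h : P.1 ∣ Q.1) : P = Q :=
  Subtype.ext (Polynomial.eq_of_monic_of_associated P.2.1 Q.2.1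
    (P.2.2.associated_of_dvd Q.2.2 h))

theorem exists_MI {g : Polynomial F} (hg : g.Monic) (h : 0 < g.natDegree) : ∃ P : MI F, P.1 ∣ g := by
  have hnu : ¬ IsUnit g := by
    intro hu
    have := Polynomial.natDegree_eq_zero_of_isUnit hu
    omega
  obtain ⟨P, hP, hd⟩ := Polynomial.exists_monic_irreducible_factor g hnu
  exact ⟨⟨P, hP, hd.1⟩, hd.2⟩

theorem SA_empty (n : ℕ) : SA (∅ : Finset (MI F)) n = if n = 0 then {1} else ∅ := by
  ext g
  constructor
  · rintro ⟨⟨hm, hd⟩, hP⟩
    by_cases hn : n = 0
    · rw [if_pos hn]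
      rw [hn] at hd
      exact hm.natDegree_eq_zero.1 hd
    · exfalso
      obtain ⟨P, hPg⟩ := exists_MI hm (by omega)
      exact absurd (hP P hPg) (Finset.notMem_empty P)
  · intro h
    by_cases hn : n = 0
    · rw [if_pos hn, Set.mem_singleton_iff] at h
      subst h
      refine ⟨⟨Polynomial.monic_one, by rw [Polynomial.natDegree_one, hn]⟩, fun P hP => ?_⟩
      exact absurd (isUnit_of_dvd_one hP) P.2.2.not_isUnit
    · rw [if_neg hn] at h
      exact absurd h (Set.notMem_empty g)

theorem SA_insert [DecidableEq (MI F)] (A : Finset (MI F)) (P : MI F) (hP : P ∉ A) (n : ℕ) :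
    SA (insert P A) n = SA A n ∪
      (if P.1.natDegree ≤ n then (fun g => P.1 * g) '' SA (insert P A) (n - P.1.natDegree) else ∅) := by
  ext g
  constructor
  · rintro ⟨⟨hm, hd⟩, hQ⟩
    by_cases hdiv : P.1 ∣ g
    · right
      obtain ⟨h, rfl⟩ := hdiv
      have hh : h.Monic := Polynomial.Monic.of_mul_monic_left P.2.1 hm
      have hdeg : (P.1 * h).natDegree = P.1.natDegree + h.natDegree :=
        P.2.1.natDegree_mul hh
      rw [if_pos (by omega)]
      refine ⟨h, ⟨⟨hh, by omega⟩, fun Q hQh => hQ Q (hQh.mul_left _)⟩, rfl⟩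
    · left
      refine ⟨⟨hm, hd⟩, fun Q hQg => ?_⟩
      rcases Finset.mem_insert.1 (hQ Q hQg) with h | h
      · rw [h] at hQg
        exact absurd hQg hdiv
      · exact h
  · rintro (h | h)
    · exact ⟨h.1, fun Q hQ => Finset.mem_insert_of_mem (h.2 Q hQ)⟩
    · split_ifs at h with hle
      · obtain ⟨h, ⟨⟨hm, hd⟩, hQ⟩, rfl⟩ := h
        refine ⟨⟨P.2.1.mul hm, ?_⟩, fun Q hQg => ?_⟩
        · show (P.1 * h).natDegree = n
          rw [P.2.1.natDegree_mul hm]
          omega
        · rcases Q.2.2.prime.dvd_or_dvd hQg with h1 | h1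
          · rw [eq_of_dvd_MI h1]
            exact Finset.mem_insert_self _ _
          · exact hQ Q h1
      · exact absurd h (Set.notMem_empty g)

variable (R : Type) [CommRing R]

/-- the generating function -/
noncomputable def GA (A : Finset (MI F)) : PowerSeries R :=
  PowerSeries.mk fun n => ((SA A n).ncard : R)

theorem GA_empty : GA R (∅ : Finset (MI F)) = 1 := by
  ext n
  rw [GA, coeff_mk, SA_empty, coeff_one]
  split_ifs with h
  · rw [Set.ncard_singleton, Nat.cast_one]
  · rw [Set.ncard_empty, Nat.cast_zero]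

theorem GA_insert [Finite F] [DecidableEq (MI F)] (A : Finset (MI F)) (P : MI F) (hP : P ∉ A) :
    (1 - X ^ P.1.natDegree) * GA R (insert P A) = GA R A := by
  ext n
  rw [sub_mul, one_mul, map_sub, coeff_X_pow_mul', GA, GA, coeff_mk, coeff_mk]
  have hdisj : Disjoint (SA A n) (if P.1.natDegree ≤ n then
      (fun g => P.1 * g) '' SA (insert P A) (n - P.1.natDegree) else ∅) := by
    rw [Set.disjoint_left]
    intro g hg hg'
    split_ifs at hg' with hle
    · obtain ⟨h, _, rfl⟩ := hg'
      exact hP (hg.2 P (Dvd.intro _ rfl))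
    · exact hg'
  have hfin : (if P.1.natDegree ≤ n then
      (fun g => P.1 * g) '' SA (insert P A) (n - P.1.natDegree) else ∅ : Set (Polynomial F)).Finite := by
    split_ifs
    · exact (SA_finite _ _).image _
    · exact Set.finite_empty
  rw [SA_insert A P hP n, Set.ncard_union_eq hdisj (SA_finite _ _) hfin]
  split_ifs with hle
  · rw [coeff_mk, Set.ncard_image_of_injective _ (mul_right_injective₀ P.2.1.ne_zero)]
    push_cast
    ring
  · rw [Set.ncard_empty, coeff_mk]
    push_cast
    ring

theorem prod_mul_GA [Finite F] (A : Finset (MI F)) :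
    (∏ P ∈ A, (1 - X ^ P.1.natDegree : PowerSeries R)) * GA R A = 1 := by
  classical
  induction A using Finset.induction_on with
  | empty => rw [Finset.prod_empty, one_mul, GA_empty]
  | insert P A hP ih =>
    rw [Finset.prod_insert hP, mul_comm (1 - X ^ P.1.natDegree : PowerSeries R), mul_assoc,
      GA_insert R A P hP, ih]

theorem GA_mod [Finite F] (A : Finset (MI F)) (n : ℕ) (hA : ∀ P : MI F, P.1.natDegree ≤ n → P ∈ A) :
    (X : PowerSeries R) ^ (n + 1) ∣ GA R A * (1 - C (Nat.card F : R) * X) - 1 := by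
  have hcoef : ∀ m, m ≤ n → coeff m (GA R A) = ((Nat.card F : R)) ^ m := by
    intro m hm
    rw [GA, coeff_mk]
    have h1 : SA A m = {g : Polynomial F | g.Monic ∧ g.natDegree = m} := by
      ext g
      refine ⟨fun h => h.1, fun h => ⟨h, fun P hP => hA P ?_⟩⟩
      have := Polynomial.natDegree_le_of_dvd hP h.1.ne_zero
      have h2 := h.2
      omega
    rw [h1]
    have h2 : ({g : Polynomial F | g.Monic ∧ g.natDegree = m}).ncard = Nat.card (Mon F m) := rfl
    rw [h2, card_mon]
    push_cast
    rfl
  rw [X_pow_dvd_iff]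
  intro m hm
  have hexp : GA R A * (1 - C (Nat.card F : R) * X) - 1 =
      GA R A - C (Nat.card F : R) * (GA R A * X) - 1 := by ring
  rw [hexp, map_sub, map_sub, coeff_C_mul]
  cases m with
  | zero =>
    rw [hcoef 0 (by omega), coeff_zero_mul_X, coeff_one, if_pos rfl]
    simp
  | succ m =>
    rw [hcoef _ (by omega), coeff_succ_mul_X, hcoef m (by omega), coeff_one, if_neg (by omega)]
    ring

/-- the Euler product over the monic irreducible polynomials -/
theorem euler_irr [Finite F] :
    eulerProd (fun P : MI F => P.1.natDegree) (fun P => 1 - X ^ P.1.natDegree) =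
      1 - C (Nat.card F : R) * X := by
  apply eq_of_mod
  intro n
  have hf : ∀ P : MI F, (X : PowerSeries R) ^ P.1.natDegree ∣ (1 - X ^ P.1.natDegree) - 1 := by
    intro P
    rw [sub_right_comm, sub_self, zero_sub]
    exact (dvd_neg).2 dvd_rfl
  have h1 := eulerProd_mod (fun n => finite_deg_le (F := F) n) hf n (finite_deg_le n).toFinset
    (fun P hP => by rw [Set.Finite.mem_toFinset]; exact hP)
  have h2 := GA_mod R (finite_deg_le (F := F) n).toFinset n
    (fun P hP => by rw [Set.Finite.mem_toFinset]; exact hP)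
  have h3 := prod_mul_GA R (finite_deg_le (F := F) n).toFinset
  set Q := ∏ P ∈ (finite_deg_le (F := F) n).toFinset, (1 - X ^ P.1.natDegree : PowerSeries R)
  set G := GA R (finite_deg_le (F := F) n).toFinset
  have h4 : (X : PowerSeries R) ^ (n + 1) ∣ Q - (1 - C (Nat.card F : R) * X) := by
    have h5 : Q - (1 - C (Nat.card F : R) * X) =
        - (Q * (G * (1 - C (Nat.card F : R) * X) - 1)) := by
      linear_combination (1 - C (Nat.card F : R) * X) * h3
    rw [h5]
    exact (dvd_neg).2 (h2.mul_left _)
  exact mod_trans h1 h4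

end

end Pool.Agent.W313.Hyp
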