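import Pool.Agent.W343.BSD.Fam2
import Pool.Agent.W313.Hyp.Irr

/-!
The places over a place at which a monic polynomial has separable reduction.
-/

set_option autoImplicit false
set_option linter.all false
set_option maxHeartbeats 4000000

open Module FF Polynomial

namespace Pool.Agent.W313.Hyp

open Pool.Agent.W343.BSD Pool.Agent.H123R3.ZT

section exist

variable {k K L : Type} [Field k] [Field K] [Algebra k K] [Field L] [Algebra k L] [Algebra K L]
  [IsScalarTower k K L]

/-- A place over `v` at which the residue class of `θ` is a root of a given irreducible factor of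
the reduction of the minimal polynomial. -/
theorem exists_place [FiniteDimensional K L] [Algebra.IsSeparable K L] (v : Place k K) (θ : L)
    (M : v.O[X]) (hM : M.Monic) (hMθ : M.map v.O.subtype = minpoly K θ)
    (P : v.RF[X]) (hP : Irreducible P) (hdvd : P ∣ M.map v.resHom) :
    ∃ (w : Place k L) (e : ℕ) (h : Over w v e), eval₂ h.resMap.toRingHom (w.red θ) P = 0 := by
  classical
  obtain ⟨t, ht0, ht⟩ := v.surj
  have htr : v.Reg t := Or.inr (by omega)
  have : IsDiscreteValuationRing v.O := v.isDVR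
  let iA : Algebra v.O L := ((algebraMap K L).comp v.O.subtype).toAlgebra
  let ik : Algebra k v.O := ((algebraMap k K).codRestrict v.O (fun c => v.reg_const c)).toAlgebra
  have : IsScalarTower v.O K L := IsScalarTower.of_algebraMap_eq fun _ => rfl
  have : IsScalarTower k v.O L := IsScalarTower.of_algebraMap_eq fun c => by
    rw [IsScalarTower.algebraMap_apply k K L]
    rfl
  let B := integralClosure v.O L
  have : IsDedekindDomain B := integralClosure.isDedekindDomain v.O K L
  have : IsFractionRing B L := integralClosure.isFractionRing_of_finite_extension K L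
  have hsc : IsScalarTower k B L := by
    refine IsScalarTower.of_algebraMap_eq fun c => ?_
    rw [IsScalarTower.algebraMap_apply k v.O B, ← IsScalarTower.algebraMap_apply v.O B L,
      ← IsScalarTower.algebraMap_apply k v.O L]
  -- `θ` is integral
  have hroot : aeval θ M = 0 := by
    have h1 : aeval θ (M.map v.O.subtype) = 0 := by rw [hMθ]; exact minpoly.aeval K θ
    rw [aeval_def, eval₂_map] at h1
    exact h1
  have hint : IsIntegral v.O θ := ⟨M, hM, hroot⟩
  let θB : B := ⟨θ, hint⟩
  have hrootB : aeval θB M = 0 := by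
    apply Subtype.ext
    have h1 := hroot
    have h2 : ((aeval θB M : B) : L) = aeval θ M := by
      have := (Polynomial.aeval_algebraMap_apply L θB M)
      exact this.symm
    rw [h2, h1]
    rfl
  let φ : AdjoinRoot M →ₐ[v.O] B := AdjoinRoot.liftAlgHom M (Algebra.ofId v.O B) θB hrootB
  have hφmk : ∀ G : v.O[X], ((φ (AdjoinRoot.mk M G) : B) : L) = aeval θ G := by
    intro G
    have h1 : φ (AdjoinRoot.mk M G) = aeval θB G := rfl
    rw [h1]
    exact (Polynomial.aeval_algebraMap_apply L θB G).symm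
  have hφinj : ∀ x, φ x = 0 → x = 0 := by
    intro x hx
    obtain ⟨G, rfl⟩ := AdjoinRoot.mk_surjective x
    have h1 := hφmk G
    rw [hx] at h1
    have h2 : aeval θ G = 0 := h1.symm
    have h3 : aeval θ (G.map v.O.subtype) = 0 := by
      rw [aeval_def, eval₂_map]
      exact h2
    have h4 := minpoly.dvd K θ h3
    rw [← hMθ] at h4
    have h5 : M ∣ G := (Polynomial.map_dvd_map v.O.subtype Subtype.val_injective hM).1 h4
    exact AdjoinRoot.mk_eq_zero.2 h5
  have hfact : Fact (Irreducible P) := ⟨hP⟩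
  have hψ : eval₂ ((AdjoinRoot.of P).comp v.resHom) (AdjoinRoot.root P) M = 0 := by
    rw [← eval₂_map]
    have h1 : eval₂ (AdjoinRoot.of P) (AdjoinRoot.root P) (M.map v.resHom) =
        AdjoinRoot.mk P (M.map v.resHom) := AdjoinRoot.aeval_eq _
    rw [h1]
    exact AdjoinRoot.mk_eq_zero.2 hdvd
  let ψ : AdjoinRoot M →+* AdjoinRoot P :=
    AdjoinRoot.lift ((AdjoinRoot.of P).comp v.resHom) (AdjoinRoot.root P) hψ
  have hψmk : ∀ G : v.O[X], ψ (AdjoinRoot.mk M G) = AdjoinRoot.mk P (G.map v.resHom) := by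
    intro G
    have h1 : ψ (AdjoinRoot.mk M G) =
        eval₂ ((AdjoinRoot.of P).comp v.resHom) (AdjoinRoot.root P) G := AdjoinRoot.lift_mk _ _
    rw [h1, ← eval₂_map]
    exact AdjoinRoot.aeval_eq _
  let Q0 : Ideal (AdjoinRoot M) := RingHom.ker ψ
  have hQ0 : Q0.IsPrime := RingHom.ker_isPrime ψ
  let _ : Algebra (AdjoinRoot M) B := φ.toRingHom.toAlgebra
  have : IsScalarTower v.O (AdjoinRoot M) B := IsScalarTower.of_algebraMap_eq fun a =>
    (φ.commutes a).symm
  have hintB : Algebra.IsIntegral v.O B := inferInstance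
  have hint2 : Algebra.IsIntegral (AdjoinRoot M) B := Algebra.IsIntegral.tower_top v.O
  obtain ⟨Q, -, hQp, hQ⟩ := Ideal.exists_ideal_over_prime_of_isIntegral Q0 (⊥ : Ideal B) (by
    intro x hx
    have h1 : φ x = 0 := hx
    rw [hφinj x h1]
    exact Q0.zero_mem)
  have hmem : ∀ G : v.O[X], φ (AdjoinRoot.mk M G) ∈ Q ↔ P ∣ G.map v.resHom := by
    intro G
    have h1 : φ (AdjoinRoot.mk M G) ∈ Q ↔ AdjoinRoot.mk M G ∈ Q.comap (algebraMap (AdjoinRoot M) B) :=
      Iff.rfl
    rw [h1, hQ]
    have h2 : AdjoinRoot.mk M G ∈ Q0 ↔ ψ (AdjoinRoot.mk M G) = 0 := Iff.rfl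
    rw [h2, hψmk, AdjoinRoot.mk_eq_zero]
  -- the uniformiser
  have htQ : algebraMap v.O B ⟨t, htr⟩ ∈ Q := by
    have h1 := (hmem (C ⟨t, htr⟩)).2 (by
      have h2 : v.resHom ⟨t, htr⟩ = 0 := by
        rw [← v.red_of_reg htr, v.red_eq_zero_iff htr]
        right
        omega
      rw [map_C, h2, map_zero]
      exact dvd_zero P)
    have h3 : φ (AdjoinRoot.mk M (C ⟨t, htr⟩)) = algebraMap v.O B ⟨t, htr⟩ := φ.commutes _
    rwa [h3] at h1
  have hQ0' : Q ≠ ⊥ := by
    rintro rfl
    rw [Ideal.mem_bot] at htQ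
    have h1 := congrArg (fun b : B => (b : L)) htQ
    have h2 : algebraMap K L t = 0 := h1
    rw [map_eq_zero] at h2
    exact ht0 h2
  let Q1 : IsDedekindDomain.HeightOneSpectrum B := ⟨Q, hQp, hQ0'⟩
  let w : Place k L := placeOf Q1
  have hwreg : ∀ f : K, v.Reg f → w.Reg (algebraMap K L f) := fun f hf =>
    placeOf_reg (k := k) (L := L) Q1 (algebraMap v.O B ⟨f, hf⟩)
  have hwpos : 0 < w.ord (algebraMap K L t) := by
    have h1 : w.red (algebraMap K L t) = 0 :=
      (placeOf_red_eq_zero (k := k) (L := L) Q1 (algebraMap v.O B ⟨t, htr⟩)).2 htQ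
    rw [w.red_eq_zero_iff (hwreg t htr)] at h1
    rcases h1 with h1 | h1
    · rw [map_eq_zero] at h1
      exact absurd h1 ht0
    · exact h1
  have hover := over_of_reg w v t ht0 ht hwreg hwpos
  refine ⟨w, _, hover, ?_⟩
  have hθr : w.Reg θ := placeOf_reg (k := k) (L := L) Q1 θB
  -- evaluation
  have hev : ∀ G : v.O[X], w.Reg (aeval θ G) ∧
      w.red (aeval θ G) = eval₂ hover.resMap.toRingHom (w.red θ) (G.map v.resHom) := by
    intro G
    induction G using Polynomial.induction_on' with
    | add G H hG hH =>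
      refine ⟨by rw [map_add]; exact w.reg_add hG.1 hH.1, ?_⟩
      rw [map_add, w.red_add hG.1 hH.1, hG.2, hH.2, Polynomial.map_add, eval₂_add]
    | monomial n a =>
      have h1 : aeval θ (monomial n a) = algebraMap K L a.1 * θ ^ n := by
        rw [aeval_monomial]
        rfl
      have h2 : w.Reg (algebraMap K L a.1) := hwreg a.1 a.2
      have h3 : w.Reg (θ ^ n) := reg_pow hθr n
      refine ⟨by rw [h1]; exact w.reg_mul h2 h3, ?_⟩
      rw [h1, w.red_mul h2 h3, w.red_pow hθr, Polynomial.map_monomial, eval₂_monomial]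
      congr 1
      have h4 := hover.resMap_red a.2
      rw [v.red_of_reg a.2] at h4
      exact h4.symm
  obtain ⟨G, hG⟩ : ∃ G : v.O[X], G.map v.resHom = P :=
    Polynomial.map_surjective _ v.resHom_surjective P
  have h1 := (hev G).2
  rw [hG] at h1
  rw [← h1]
  have h2 := (hmem G).2 (by rw [hG])
  have h3 := (placeOf_red_eq_zero (k := k) (L := L) Q1 (φ (AdjoinRoot.mk M G))).2 h2
  rw [← hφmk G]
  exact h3

end exist

end Pool.Agent.W313.Hyp
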