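import Pool.Agent.W343.BSD.Main
import Pool.Agent.W343.BSD.Galois
import Pool.Agent.W313.Hyp.KD

/-!
The places over a place at which a monic polynomial has separable reduction.
-/

set_option autoImplicit false
set_option linter.all false
set_option maxHeartbeats 4000000

open Module FF Polynomial

namespace Pool.Agent.W313.Hyp

open Pool.Agent.W343.BSD Pool.Agent.H123R3.ZT

section facs

variable {F : Type} [Field F] [Finite F]

theorem facs_finite {g : F[X]} (hg : g ≠ 0) : {P : MI F | P.1 ∣ g}.Finite :=
  (finite_deg_le g.natDegree).subset fun P hP => natDegree_le_of_dvd hP hg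

open Classical in
/-- the monic irreducible factors -/
noncomputable def facs (g : F[X]) : Finset (MI F) :=
  if h : {P : MI F | P.1 ∣ g}.Finite then h.toFinset else ∅

theorem mem_facs {g : F[X]} (hg : g ≠ 0) (P : MI F) : P ∈ facs g ↔ P.1 ∣ g := by
  rw [facs, dif_pos (facs_finite hg), Set.Finite.mem_toFinset]
  rfl

theorem sum_facs {g : F[X]} (hg : g.Monic) (hs : Squarefree g) :
    ∑ P ∈ facs g, P.1.natDegree = g.natDegree := by
  classical
  have hg0 := hg.ne_zero
  have hnd : (UniqueFactorizationMonoid.normalizedFactors g).Nodup :=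
    (UniqueFactorizationMonoid.squarefree_iff_nodup_normalizedFactors hg0).1 hs
  have hmem : ∀ P, P ∈ UniqueFactorizationMonoid.normalizedFactors g ↔
      Irreducible P ∧ P.Monic ∧ P ∣ g := fun P => Polynomial.mem_normalizedFactors_iff hg0
  have hprod : (UniqueFactorizationMonoid.normalizedFactors g).prod = g := by
    have h1 := Polynomial.leadingCoeff_mul_prod_normalizedFactors g
    rwa [hg.leadingCoeff, C_1, one_mul] at h1
  have hdeg : ((UniqueFactorizationMonoid.normalizedFactors g).map natDegree).sum = g.natDegree := by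
    rw [← natDegree_multiset_prod_of_monic _ (fun P hP => ((hmem P).1 hP).2.1), hprod]
  rw [← hdeg]
  have him : (facs g).image Subtype.val = (UniqueFactorizationMonoid.normalizedFactors g).toFinset := by
    ext P
    rw [Finset.mem_image, Multiset.mem_toFinset, hmem]
    constructor
    · rintro ⟨Q, hQ, rfl⟩
      rw [mem_facs hg0] at hQ
      exact ⟨Q.2.2, Q.2.1, hQ⟩
    · intro hP
      exact ⟨⟨P, hP.2.1, hP.1⟩, (mem_facs hg0 _).2 hP.2.2, rfl⟩
  have h2 : ∑ P ∈ facs g, P.1.natDegree = ∑ P ∈ (facs g).image Subtype.val, P.natDegree := by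
    rw [Finset.sum_image (fun _ _ _ _ h => Subtype.ext h)]
  rw [h2, him]
  unfold Finset.sum
  rw [Multiset.toFinset_val, Multiset.dedup_eq_self.2 hnd]

end facs

section single

variable {k K L : Type} [Field k] [Field K] [Algebra k K] [Field L] [Algebra k L] [Algebra K L]
  [IsScalarTower k K L]

theorem resMap_eq {w : Place k L} {v : Place k K} {e e' : ℕ} (h : Over w v e) (h' : Over w v e') :
    h.resMap.toRingHom = h'.resMap.toRingHom := by
  ext c
  obtain ⟨f, hf, rfl⟩ := v.red_surjective c
  exact (h.resMap_red hf).trans (h'.resMap_red hf).symm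

/-- evaluation and reduction -/
theorem red_eval {w : Place k L} {v : Place k K} {e : ℕ} (h : Over w v e) {θ : L} (hθ : w.Reg θ)
    (G : v.O[X]) : w.Reg (eval₂ ((algebraMap K L).comp v.O.subtype) θ G) ∧
      w.red (eval₂ ((algebraMap K L).comp v.O.subtype) θ G) =
        eval₂ h.resMap.toRingHom (w.red θ) (G.map v.resHom) := by
  induction G using Polynomial.induction_on' with
  | add G H hG hH =>
    refine ⟨by rw [eval₂_add]; exact w.reg_add hG.1 hH.1, ?_⟩
    rw [eval₂_add, w.red_add hG.1 hH.1, hG.2, hH.2, Polynomial.map_add, eval₂_add]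
  | monomial n a =>
    have h1 : eval₂ ((algebraMap K L).comp v.O.subtype) θ (monomial n a) =
        algebraMap K L a.1 * θ ^ n := by
      rw [eval₂_monomial]
      rfl
    have h2 : w.Reg (algebraMap K L a.1) := h.reg.2 a.2
    have h3 : w.Reg (θ ^ n) := reg_pow hθ n
    refine ⟨by rw [h1]; exact w.reg_mul h2 h3, ?_⟩
    rw [h1, w.red_mul h2 h3, w.red_pow hθ, Polynomial.map_monomial, eval₂_monomial]
    congr 1
    have h4 := h.resMap_red a.2
    rw [v.red_of_reg a.2] at h4
    exact h4.symm

theorem reg_theta {w : Place k L} {v : Place k K} {e : ℕ} (h : Over w v e) {θ : L}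
    {F : v.O[X]} (hF : F.Monic) (hθ : eval₂ ((algebraMap K L).comp v.O.subtype) θ F = 0) :
    w.Reg θ := by
  let iA : Algebra v.O L := ((algebraMap K L).comp v.O.subtype).toAlgebra
  exact w.reg_of_isIntegral (A := v.O) (fun a => h.reg.2 a.2) ⟨F, hF, hθ⟩

theorem exists_factor [Finite k] [FF.IsFF k K] [FF.IsFF k L] {w : Place k L} {v : Place k K}
    {e : ℕ} (h : Over w v e) {θ : L} {F : v.O[X]} (hF : F.Monic)
    (hθ : eval₂ ((algebraMap K L).comp v.O.subtype) θ F = 0) {fd : ℕ} (hfd : w.deg = v.deg * fd) :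
    ∃ P : MI v.RF, P.1 ∣ F.map v.resHom ∧ P.1.natDegree ≤ fd ∧
      ∀ Q : MI v.RF, eval₂ h.resMap.toRingHom (w.red θ) Q.1 = 0 → Q = P := by
  let _ : Algebra v.RF w.RF := h.resMap.toRingHom.toAlgebra
  have : IsScalarTower k v.RF w.RF := IsScalarTower.of_algebraMap_eq fun c =>
    (h.resMap.commutes c).symm
  have hwdeg : 0 < w.deg := deg_pos' w
  have hfin : Module.Finite k w.RF := Module.finite_of_finrank_pos hwdeg
  have hfin' : Module.Finite v.RF w.RF := Module.Finite.of_restrictScalars_finite k v.RF w.RF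
  have hint : IsIntegral v.RF (w.red θ) := Algebra.IsIntegral.isIntegral _
  refine ⟨⟨minpoly v.RF (w.red θ), minpoly.monic hint, minpoly.irreducible hint⟩, ?_, ?_, ?_⟩
  · apply minpoly.dvd
    have h1 := (red_eval h (reg_theta h hF hθ) F).2
    rw [hθ, w.red_zero] at h1
    exact h1.symm
  · have h1 := minpoly.natDegree_le (A := v.RF) (w.red θ)
    have h2 := deg_over h
    rw [hfd] at h2
    have h3 := Nat.eq_of_mul_eq_mul_left (deg_pos' v) h2
    rw [h3]
    exact h1
  · intro Q hQ
    exact Subtype.ext (minpoly.eq_of_irreducible_of_monic Q.2.2 hQ Q.2.1)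

end single

end Pool.Agent.W313.Hyp
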