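import Pool.Agent.W343.BSD.Final
import Pool.Agent.W313.Hyp.KD2

/-!
Families of fields attached to a separable polynomial, and the places over a place at which the
polynomial has separable reduction.
-/

set_option autoImplicit false
set_option linter.all false
set_option maxHeartbeats 4000000

open Module FF Polynomial

namespace Pool.Agent.W313.Hyp

open Pool.Agent.W343.BSD Pool.Agent.H123R3.ZT

section fam

variable {K : Type} [Field K] {ι : Type} [Fintype ι] {L : ι → Type}
  [∀ i, Field (L i)] [∀ i, Algebra K (L i)]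

/-- `K[x] / (f)` is the product of the fields `L i = K(θ i)`. -/
structure IsFam (f : K[X]) (θ : ∀ i, L i) : Prop where
  monic : f.Monic
  sepf : f.Separable
  gen : ∀ i, IntermediateField.adjoin K {θ i} = ⊤
  prod : ∏ i, minpoly K (θ i) = f

variable {f : K[X]} {θ : ∀ i, L i}

theorem IsFam.dvd (h : IsFam f θ) (i : ι) : minpoly K (θ i) ∣ f := by
  rw [← h.prod]
  exact Finset.dvd_prod_of_mem _ (Finset.mem_univ i)

theorem IsFam.int (h : IsFam f θ) (i : ι) : IsIntegral K (θ i) := by
  by_contra hn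
  have h1 := minpoly.eq_zero hn
  have h2 := h.dvd i
  rw [h1, zero_dvd_iff] at h2
  exact h.monic.ne_zero h2

theorem IsFam.fd (h : IsFam f θ) (i : ι) : FiniteDimensional K (L i) := fd_of_gen (h.int i) (h.gen i)

theorem IsFam.sep (h : IsFam f θ) (i : ι) : Algebra.IsSeparable K (L i) :=
  sep_of_gen (h.sepf.of_dvd (h.dvd i)) (h.gen i)

theorem IsFam.sum (h : IsFam f θ) : ∑ i, finrank K (L i) = f.natDegree := by
  rw [← h.prod, natDegree_prod_of_monic _ _ (fun i _ => minpoly.monic (h.int i))]
  exact Finset.sum_congr rfl fun i _ => (natDegree_of_gen (h.int i) (h.gen i)).symm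

theorem IsFam.root (h : IsFam f θ) (i : ι) : aeval (θ i) f = 0 := by
  obtain ⟨q, hq⟩ := h.dvd i
  rw [hq, map_mul, minpoly.aeval, zero_mul]

/-- The polynomial obtained by the substitution `x ↦ u ^ 2 x + r`, divided by `u ^ (2 n)`. -/
noncomputable def model (f : K[X]) (u r : K) : K[X] :=
  C ((u ^ (2 * f.natDegree))⁻¹) * f.comp (C (u ^ 2) * X + C r)

theorem model_eq (f : K[X]) (u r : K) :
    model f u r = C ((u ^ (2 * f.natDegree))⁻¹) * f.comp (C (u ^ 2) * X + C r) := rfl

theorem natDegree_lin {u r : K} (hu : u ≠ 0) : (C (u ^ 2) * X + C r : K[X]).natDegree = 1 :=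
  natDegree_linear (pow_ne_zero 2 hu)

theorem natDegree_model {u r : K} (hu : u ≠ 0) : (model f u r).natDegree = f.natDegree := by
  rw [model, natDegree_C_mul (inv_ne_zero (pow_ne_zero _ hu)), natDegree_comp, natDegree_lin hu,
    mul_one]

theorem monic_model {u r : K} (hu : u ≠ 0) (hf : f.Monic) : (model f u r).Monic := by
  rw [Monic, model, leadingCoeff_mul, leadingCoeff_C, leadingCoeff_comp (by rw [natDegree_lin hu]; norm_num),
    hf.leadingCoeff, one_mul, leadingCoeff_linear (pow_ne_zero 2 hu), ← pow_mul, 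
    inv_mul_cancel₀ (pow_ne_zero _ hu)]

theorem model_prod {u r : K} (hu : u ≠ 0) {J : Type} (s : Finset J) (P : J → K[X])
    (hP : ∀ i ∈ s, (P i).Monic) : model (∏ i ∈ s, P i) u r = ∏ i ∈ s, model (P i) u r := by
  simp only [model]
  rw [Finset.prod_mul_distrib, prod_comp, natDegree_prod_of_monic _ _ hP, Finset.mul_sum,
    ← Finset.prod_pow_eq_pow_sum, ← Finset.prod_inv_distrib, map_prod]

theorem irreducible_model {u r : K} (hu : u ≠ 0) (hf : Irreducible f) :
    Irreducible (model f u r) := by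
  let _ : Invertible (u ^ 2) := invertibleOfNonzero (pow_ne_zero 2 hu)
  have h1 : Irreducible (f.comp (C (u ^ 2) * X + C r)) := by
    have h2 := (MulEquiv.irreducible_iff (algEquivCMulXAddC (u ^ 2) r)).2 hf
    rwa [algEquivCMulXAddC_apply, ← comp_eq_aeval] at h2
  rw [model]
  exact (irreducible_isUnit_mul
    (isUnit_C.2 (isUnit_iff_ne_zero.2 (inv_ne_zero (pow_ne_zero _ hu))))).2 h1

theorem separable_model {u r : K} (hu : u ≠ 0) (hf : f.Separable) : (model f u r).Separable := by
  let _ : Invertible (u ^ 2) := invertibleOfNonzero (pow_ne_zero 2 hu)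
  have hd : derivative (f.comp (C (u ^ 2) * X + C r)) =
      C (u ^ 2) * (derivative f).comp (C (u ^ 2) * X + C r) := by
    rw [derivative_comp, derivative_add, derivative_C_mul, derivative_X, derivative_C, mul_one,
      add_zero]
  have h1 : (f.comp (C (u ^ 2) * X + C r)).Separable := by
    obtain ⟨a, b, hab⟩ := hf
    refine ⟨a.comp (C (u ^ 2) * X + C r), C ((u ^ 2)⁻¹) * b.comp (C (u ^ 2) * X + C r), ?_⟩
    have h2 := congrArg (fun p => p.comp (C (u ^ 2) * X + C r)) hab
    simp only [add_comp, mul_comp, one_comp] at h2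
    rw [hd]
    have h3 : (C ((u ^ 2)⁻¹) : K[X]) * C (u ^ 2) = 1 := by
      rw [← C_mul, inv_mul_cancel₀ (pow_ne_zero 2 hu), C_1]
    linear_combination h2 + b.comp (C (u ^ 2) * X + C r) *
      (derivative f).comp (C (u ^ 2) * X + C r) * h3
  rw [model]
  exact (Separable.unit_mul (isUnit_C.2 (isUnit_iff_ne_zero.2 (inv_ne_zero (pow_ne_zero _ hu)))) h1)

theorem IsFam.scale (h : IsFam f θ) {u r : K} (hu : u ≠ 0) :
    IsFam (model f u r) (fun i => (θ i - algebraMap K (L i) r) / algebraMap K (L i) (u ^ 2)) := by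
  have hu2 : ∀ i, algebraMap K (L i) (u ^ 2) ≠ 0 := fun i =>
    (_root_.map_ne_zero _).2 (pow_ne_zero 2 hu)
  have hmin : ∀ i, minpoly K ((θ i - algebraMap K (L i) r) / algebraMap K (L i) (u ^ 2)) =
      model (minpoly K (θ i)) u r := by
    intro i
    symm
    apply minpoly.eq_of_irreducible_of_monic
      (irreducible_model hu (minpoly.irreducible (h.int i)))
    · rw [model, map_mul, aeval_comp, map_add, map_mul, aeval_C, aeval_X, aeval_C, aeval_C,
        mul_div_cancel₀ _ (hu2 i), sub_add_cancel, minpoly.aeval, mul_zero]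
    · exact monic_model hu (minpoly.monic (h.int i))
  refine ⟨monic_model hu h.monic, separable_model hu h.sepf, fun i => ?_, ?_⟩
  · rw [eq_top_iff, ← h.gen i, IntermediateField.adjoin_simple_le_iff]
    have h1 : θ i = algebraMap K (L i) (u ^ 2) *
        ((θ i - algebraMap K (L i) r) / algebraMap K (L i) (u ^ 2)) + algebraMap K (L i) r := by
      rw [mul_div_cancel₀ _ (hu2 i), sub_add_cancel]
    have h2 : algebraMap K (L i) (u ^ 2) *
        ((θ i - algebraMap K (L i) r) / algebraMap K (L i) (u ^ 2)) + algebraMap K (L i) r ∈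
        IntermediateField.adjoin K
          {(θ i - algebraMap K (L i) r) / algebraMap K (L i) (u ^ 2)} :=
      add_mem (mul_mem (IntermediateField.algebraMap_mem _ _)
        (IntermediateField.mem_adjoin_simple_self K _)) (IntermediateField.algebraMap_mem _ _)
    rwa [← h1] at h2
  · rw [Finset.prod_congr rfl (fun i _ => hmin i), ← model_prod hu Finset.univ
      (fun i => minpoly K (θ i)) (fun i _ => minpoly.monic (h.int i)), h.prod]

end fam

section kd

variable {k K : Type} [Field k] [Field K] [Algebra k K] [Finite k] [FF.IsFF k K] {ι : Type}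
  [Fintype ι] {L : ι → Type} [∀ i, Field (L i)] [∀ i, Algebra k (L i)] [∀ i, Algebra K (L i)]
  [∀ i, IsScalarTower k K (L i)]

theorem exists_factors {f : K[X]} {θ : ∀ i, L i} (h : IsFam f θ) (v : Place k K) {F : v.O[X]}
    (hF : F.map v.O.subtype = f) : ∃ M : ι → v.O[X], (∀ i, (M i).Monic) ∧
      (∀ i, (M i).map v.O.subtype = minpoly K (θ i)) ∧ ∏ i, M i = F := by
  have hFm : F.Monic := monic_of_injective Subtype.val_injective (by
    have := h.monic
    rw [← hF] at this
    exact this)
  have : IsDiscreteValuationRing v.O := v.isDVR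
  have hx : ∀ i, ∃ M : v.O[X], M.Monic ∧ M.map v.O.subtype = minpoly K (θ i) := by
    intro i
    let iA : Algebra v.O (L i) := ((algebraMap K (L i)).comp v.O.subtype).toAlgebra
    have : IsScalarTower v.O K (L i) := IsScalarTower.of_algebraMap_eq fun _ => rfl
    have hint : IsIntegral v.O (θ i) := by
      refine ⟨F, hFm, ?_⟩
      have h1 := h.root i
      rw [← hF, aeval_def, eval₂_map] at h1
      exact h1
    exact ⟨minpoly v.O (θ i), minpoly.monic hint,
      (minpoly.isIntegrallyClosed_eq_field_fractions' K hint).symm⟩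
  choose M hM1 hM2 using hx
  refine ⟨M, hM1, hM2, ?_⟩
  apply Polynomial.map_injective v.O.subtype Subtype.val_injective
  rw [Polynomial.map_prod, hF, ← h.prod]
  exact Finset.prod_congr rfl fun i _ => hM2 i

theorem kd_prod {f : K[X]} {θ : ∀ i, L i} (h : IsFam f θ) (v : Place k K) {F : v.O[X]}
    (hF : F.map v.O.subtype = f) (hsep : Squarefree (F.map v.resHom))
    {S : ∀ i, Finset (Place k (L i))} {e d : (Σ i, Place k (L i)) → ℕ} (D : FiberData v S e d)
    {M : Type*} [CommMonoid M] (φ : ℕ → M) :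
    ∏ i, ∏ w ∈ S i, φ w.deg = ∏ P ∈ facs (F.map v.resHom), φ (v.deg * P.1.natDegree) := by
  classical
  have hFm : F.Monic := monic_of_injective Subtype.val_injective (by
    have := h.monic
    rw [← hF] at this
    exact this)
  have hvdeg : 0 < v.deg := deg_pos' v
  have hvfin : Module.Finite k v.RF := Module.finite_of_finrank_pos hvdeg
  have hfinRF : Finite v.RF := Module.finite_of_finite k
  have hFbm : (F.map v.resHom).Monic := hFm.map _
  have hn : (F.map v.resHom).natDegree = f.natDegree := by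
    rw [hFm.natDegree_map, ← hF, hFm.natDegree_map]
  have hfd := h.fd
  have hsp := h.sep
  have hFF : ∀ i, FF.IsFF k (L i) := fun i => isFF_of_finite (K := K)
  have hroot : ∀ i, eval₂ ((algebraMap K (L i)).comp v.O.subtype) (θ i) F = 0 := by
    intro i
    have h1 := h.root i
    rw [← hF, aeval_def, eval₂_map] at h1
    exact h1
  obtain ⟨Mi, hM1, hM2, hM3⟩ := exists_factors h v hF
  have hr : ∀ j : Σ i, Place k (L i), j ∈ Finset.univ.sigma S → ∃ P : MI v.RF,
      P.1 ∣ F.map v.resHom ∧ P.1.natDegree ≤ d j ∧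
      ∀ Q : MI v.RF, (∃ (e' : ℕ) (hov : Over j.2 v e'),
        eval₂ hov.resMap.toRingHom (j.2.red (θ j.1)) Q.1 = 0) → Q = P := by
    rintro ⟨i, w⟩ hj
    rw [Finset.mem_sigma] at hj
    obtain ⟨P, hP1, hP2, hP3⟩ := exists_factor (D.isOver i w hj.2) hFm (hroot i) (D.deg i w hj.2)
    refine ⟨P, hP1, hP2, ?_⟩
    rintro Q ⟨e', hov, hQ⟩
    apply hP3 Q
    rwa [resMap_eq (D.isOver i w hj.2) hov]
  have hs : ∀ P : MI v.RF, P.1 ∣ F.map v.resHom → ∃ j : Σ i, Place k (L i),
      j ∈ Finset.univ.sigma S ∧ ∃ (e' : ℕ) (hov : Over j.2 v e'),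
        eval₂ hov.resMap.toRingHom (j.2.red (θ j.1)) P.1 = 0 := by
    intro P hP
    rw [← hM3, Polynomial.map_prod] at hP
    obtain ⟨i, -, hi⟩ := (P.2.2.prime.dvd_finset_prod_iff _).1 hP
    obtain ⟨w, e', hov, hw⟩ := exists_place v (θ i) (Mi i) (hM1 i) (hM2 i) P.1 P.2.2 hi
    exact ⟨⟨i, w⟩, Finset.mem_sigma.2 ⟨Finset.mem_univ _, D.mem i w e' hov⟩, e', hov, hw⟩
  let A := facs (F.map v.resHom)
  have hA : ∀ P, P ∈ A ↔ P.1 ∣ F.map v.resHom := mem_facs hFbm.ne_zero
  have hne : Nonempty (MI v.RF) := ⟨⟨X, monic_X, irreducible_X⟩⟩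
  choose! rr hr1 hr2 hr3 using hr
  have hs' : ∀ P : {P // P ∈ A}, ∃ j : Σ i, Place k (L i),
      j ∈ Finset.univ.sigma S ∧ rr j = P.1 := by
    rintro ⟨P, hP⟩
    obtain ⟨j, hj, hj'⟩ := hs P ((hA P).1 hP)
    exact ⟨j, hj, (hr3 j hj P hj').symm⟩
  choose s hs1 hs2 using hs'
  have hsinj : Function.Injective s := by
    intro P Q hPQ
    apply Subtype.ext
    rw [← hs2 P, ← hs2 Q, hPQ]
  have hpos := fiber_pos D
  have hsumZ : ∑ j ∈ Finset.univ.sigma S, e j * d j = f.natDegree := by
    rw [Finset.sum_sigma, ← h.sum]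
    exact Finset.sum_congr rfl fun i _ => D.sum i
  have hsumA : ∑ P ∈ A, P.1.natDegree = f.natDegree := by
    rw [sum_facs hFbm hsep, hn]
  have himg : A.attach.image s ⊆ Finset.univ.sigma S := by
    intro j hj
    obtain ⟨P, -, rfl⟩ := Finset.mem_image.1 hj
    exact hs1 P
  have hle : ∀ P : {P // P ∈ A}, P.1.1.natDegree ≤ e (s P) * d (s P) := by
    intro P
    have h1 := hr2 (s P) (hs1 P)
    rw [hs2 P] at h1
    exact h1.trans (Nat.le_mul_of_pos_left _ (hpos _ (hs1 P)).1)
  have hsum1 : ∑ P ∈ A.attach, e (s P) * d (s P) = ∑ j ∈ A.attach.image s, e j * d j := by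
    rw [Finset.sum_image (fun _ _ _ _ h => hsinj h)]
  have hsum2 : ∑ j ∈ A.attach.image s, e j * d j ≤ ∑ j ∈ Finset.univ.sigma S, e j * d j :=
    Finset.sum_le_sum_of_subset himg
  have hsum3 : ∑ P ∈ A.attach, P.1.1.natDegree = f.natDegree := by
    rw [Finset.sum_attach A (fun P => P.1.natDegree)]
    exact hsumA
  have hsum4 : ∑ P ∈ A.attach, P.1.1.natDegree ≤ ∑ P ∈ A.attach, e (s P) * d (s P) :=
    Finset.sum_le_sum fun P _ => hle P
  have heq : ∀ P : {P // P ∈ A}, P.1.1.natDegree = e (s P) * d (s P) := by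
    intro P
    exact (Finset.sum_eq_sum_iff_of_le (fun P _ => hle P)).1 (by omega) P (Finset.mem_attach _ _)
  have hall : A.attach.image s = Finset.univ.sigma S := by
    apply Finset.Subset.antisymm himg
    intro j hj
    by_contra hn'
    have h1 : ∑ x ∈ A.attach.image s, e x * d x + e j * d j ≤
        ∑ x ∈ Finset.univ.sigma S, e x * d x := by
      have h6 := Finset.sum_insert (f := fun x => e x * d x) hn'
      have h7 := Finset.sum_le_sum_of_subset (f := fun x => e x * d x)
        (Finset.insert_subset hj himg)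
      omega
    have h2 := hpos j hj
    have h3 : 0 < e j * d j := Nat.mul_pos h2.1 h2.2
    omega
  have hdeq : ∀ P : {P // P ∈ A}, (s P).2.deg = v.deg * P.1.1.natDegree := by
    intro P
    have h1 := hr2 (s P) (hs1 P)
    rw [hs2 P] at h1
    have h2 := heq P
    have h3 := hpos _ (hs1 P)
    have h4 : (s P).2.deg = v.deg * d (s P) := D.deg (s P).1 (s P).2 (by
      have := hs1 P
      rw [Finset.mem_sigma] at this
      exact this.2)
    rw [h4]
    congr 1
    have h5 : d (s P) ≤ e (s P) * d (s P) := Nat.le_mul_of_pos_left _ h3.1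
    omega
  have e1 : ∏ i, ∏ w ∈ S i, φ w.deg = ∏ j ∈ Finset.univ.sigma S, φ j.2.deg := by
    rw [Finset.prod_sigma]
  rw [e1, ← hall, Finset.prod_image (fun _ _ _ _ h => hsinj h),
    Finset.prod_congr rfl (fun P _ => by rw [hdeq P]),
    Finset.prod_attach A (fun P => φ (v.deg * P.1.natDegree))]

end kd

end Pool.Agent.W313.Hyp
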