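import Pool.Agent.W343.BSD.Euler
import Pool.Agent.W313.Hyp.Irr

/-!
Euler products over a family of index sets.
-/

set_option autoImplicit false
set_option linter.all false
set_option maxHeartbeats 1000000

open PowerSeries

namespace Pool.Agent.W313.Hyp

open Pool.Agent.W343.BSD

section

variable {R : Type*} [CommRing R]

theorem euler_one_mod {ι : Type*} {d : ι → ℕ} (hfin : ∀ n, {i | d i ≤ n}.Finite)
    {f : ι → PowerSeries R} (hd : ∀ i, (X : PowerSeries R) ^ d i ∣ f i - 1) (k : ℕ)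
    (hf : ∀ i, (X : PowerSeries R) ^ k ∣ f i - 1) :
    (X : PowerSeries R) ^ k ∣ eulerProd d f - 1 := by
  have h1 := eulerProd_mod hfin hd k (hfin k).toFinset (fun i hi => by
    rw [Set.Finite.mem_toFinset]; exact hi)
  have h2 := prod_congr_mod (hfin k).toFinset f (fun _ => 1) k (fun i _ => hf i)
  rw [Finset.prod_const_one] at h2
  exact mod_trans ((pow_dvd_pow _ (Nat.le_succ k)).trans h1) h2

variable {ι : Type*} {κ : ι → Type*} {d : ι → ℕ} {e : ∀ i, κ i → ℕ}

theorem sigma_finite (hfin : ∀ n, {i | d i ≤ n}.Finite) (hdpos : ∀ i, 0 < d i)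
    (hfin' : ∀ i n, {j : κ i | e i j ≤ n}.Finite) (he : ∀ i j, 0 < e i j) (n : ℕ) :
    {p : Σ i, κ i | d p.1 * e p.1 p.2 ≤ n}.Finite := by
  classical
  refine ((hfin n).toFinset.sigma (fun i => (hfin' i n).toFinset)).finite_toSet.subset ?_
  rintro ⟨i, j⟩ h
  have h' : d i * e i j ≤ n := h
  rw [Finset.mem_coe, Finset.mem_sigma, Set.Finite.mem_toFinset, Set.Finite.mem_toFinset]
  exact ⟨(Nat.le_mul_of_pos_right _ (he i j)).trans h', (Nat.le_mul_of_pos_left _ (hdpos i)).trans h'⟩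

theorem eulerProd_sigma (hfin : ∀ n, {i | d i ≤ n}.Finite) (hdpos : ∀ i, 0 < d i)
    (hfin' : ∀ i n, {j : κ i | e i j ≤ n}.Finite) (he : ∀ i j, 0 < e i j)
    (f : (Σ i, κ i) → PowerSeries R)
    (hf : ∀ p : Σ i, κ i, (X : PowerSeries R) ^ (d p.1 * e p.1 p.2) ∣ f p - 1) :
    eulerProd (fun p : Σ i, κ i => d p.1 * e p.1 p.2) f =
      eulerProd d (fun i => eulerProd (fun j => d i * e i j) (fun j => f ⟨i, j⟩)) := by
  classical
  have hin : ∀ i n, {j : κ i | d i * e i j ≤ n}.Finite := fun i n =>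
    (hfin' i n).subset fun j hj => (Nat.le_mul_of_pos_left _ (hdpos i)).trans hj
  have hdv : ∀ i j, (X : PowerSeries R) ^ d i ∣ f ⟨i, j⟩ - 1 := fun i j =>
    (pow_dvd_pow _ (Nat.le_mul_of_pos_right _ (he i j))).trans (hf ⟨i, j⟩)
  have hout : ∀ i, (X : PowerSeries R) ^ d i ∣
      eulerProd (fun j => d i * e i j) (fun j => f ⟨i, j⟩) - 1 := fun i =>
    euler_one_mod (hin i) (fun j => hf ⟨i, j⟩) (d i) (hdv i)
  apply eq_of_mod
  intro n
  have h1 := eulerProd_mod (sigma_finite hfin hdpos hfin' he) hf n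
    ((hfin n).toFinset.sigma (fun i => (hin i n).toFinset)) (by
      rintro ⟨i, j⟩ h
      rw [Finset.mem_sigma, Set.Finite.mem_toFinset, Set.Finite.mem_toFinset]
      exact ⟨(Nat.le_mul_of_pos_right _ (he i j)).trans h, h⟩)
  have h2 := eulerProd_mod hfin hout n (hfin n).toFinset (fun i hi => by
    rw [Set.Finite.mem_toFinset]; exact hi)
  rw [Finset.prod_sigma] at h1
  have h3 := prod_congr_mod (hfin n).toFinset
    (fun i => eulerProd (fun j => d i * e i j) (fun j => f ⟨i, j⟩))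
    (fun i => ∏ j ∈ (hin i n).toFinset, f ⟨i, j⟩) (n + 1) (fun i _ =>
      eulerProd_mod (hin i) (fun j => hf ⟨i, j⟩) n (hin i n).toFinset (fun j hj => by
        rw [Set.Finite.mem_toFinset]; exact hj))
  exact mod_trans h1 (mod_symm (mod_trans h2 h3))

end

end Pool.Agent.W313.Hyp
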