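import Pool.Agent.W343.BSD.Final
import Pool.Agent.W313.Hyp.Sigma
import Pool.Agent.W313.Hyp.KD3

/-!
The Euler factors of the curve `y ^ 2 = h(x)` over a finite field, modulo two.
-/

set_option autoImplicit false
set_option linter.all false
set_option maxHeartbeats 4000000

open PowerSeries FF Module

namespace Pool.Agent.W313.Hyp

open Pool.Agent.W343.BSD Pool.Agent.H123R3.ZT

section subtype

variable {R : Type*} [CommRing R]

theorem eulerProd_subtype {ι : Type*} (p : ι → Prop) [DecidablePred p] {d : ι → ℕ}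
    (hfin : ∀ n, {i | d i ≤ n}.Finite) {f : ι → PowerSeries R}
    (hf : ∀ i, p i → (X : PowerSeries R) ^ d i ∣ f i - 1) :
    eulerProd (fun i : {i // p i} => d i.1) (fun i => f i.1) =
      eulerProd d (fun i => if p i then f i else 1) := by
  classical
  have hfin' : ∀ n, {i : {i // p i} | d i.1 ≤ n}.Finite := fun n =>
    Set.Finite.of_finite_image (f := fun i : {i // p i} => i.1)
      ((hfin n).subset (by rintro _ ⟨i, hi, rfl⟩; exact hi))
      (Set.injOn_of_injective Subtype.val_injective)
  have hf' : ∀ i, (X : PowerSeries R) ^ d i ∣ (if p i then f i else 1) - 1 := by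
    intro i
    split_ifs with h
    · exact hf i h
    · rw [sub_self]; exact dvd_zero _
  apply eq_of_mod
  intro n
  have h1 := eulerProd_mod hfin' (f := fun i => f i.1) (fun i => hf i.1 i.2) n
    ((hfin n).toFinset.subtype p) (fun i hi => by
      rw [Finset.mem_subtype, Set.Finite.mem_toFinset]; exact hi)
  have h2 := eulerProd_mod hfin hf' n (hfin n).toFinset (fun i hi => by
      rw [Set.Finite.mem_toFinset]; exact hi)
  rw [Finset.prod_subtype_eq_prod_filter, Finset.prod_filter] at h1
  exact mod_trans h1 (mod_symm h2)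

end subtype

section loc

variable {F : Type} [Field F]

open Classical in
/-- The quadratic character of `h` modulo `P`: it is `0` if `P` divides `h`, and otherwise `1` or
`-1` according to whether `h` is congruent to a square modulo `P` or not. -/
noncomputable def chi (h P : Polynomial F) : ℤ :=
  if P ∣ h then 0 else if ∃ s : Polynomial F, P ∣ h - s ^ 2 then 1 else -1

theorem chi_of_dvd {h P : Polynomial F} (hP : P ∣ h) : chi h P = 0 := by
  unfold chi
  rw [if_pos hP]

theorem chi_mod {h P : Polynomial F} (hP : ¬ P ∣ h) : (Int.castRingHom (ZMod 2)) (chi h P) = 1 := by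
  classical
  unfold chi
  rw [if_neg hP]
  split_ifs
  · simp
  · rw [map_neg, map_one]
    exact CharTwo.neg_eq 1

/-- The Euler factor at a closed point. -/
noncomputable def ptFactor (h : Polynomial F) (d : ℕ) (P : MI F) : PowerSeries ℤ :=
  1 - C (chi h P.1) * X ^ (d * P.1.natDegree)

theorem ptFactor_dvd (h : Polynomial F) (d : ℕ) (P : MI F) :
    (X : PowerSeries ℤ) ^ (d * P.1.natDegree) ∣ ptFactor h d P - 1 := by
  unfold ptFactor
  rw [sub_right_comm, sub_self, zero_sub]
  exact (dvd_neg).2 (dvd_mul_left _ _)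

theorem neg_eq_two (z : PowerSeries (ZMod 2)) : 1 - z = 1 + z := by
  have h20 : (2 : PowerSeries (ZMod 2)) = 0 := by
    have e1 : (2 : PowerSeries (ZMod 2)) = PowerSeries.C (2 : ZMod 2) := by
      rw [map_ofNat]
    rw [e1, show (2 : ZMod 2) = 0 from rfl, map_zero]
  linear_combination -z * h20

theorem red2_ptFactor_dvd {h : Polynomial F} {d : ℕ} {P : MI F} (hP : P.1 ∣ h) :
    red2 (ptFactor h d P) = 1 := by
  unfold ptFactor
  rw [chi_of_dvd hP, map_zero, zero_mul, sub_zero, map_one]

theorem red2_ptFactor {h : Polynomial F} {d : ℕ} {P : MI F} (hP : ¬ P.1 ∣ h) :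
    red2 (ptFactor h d P) = 1 + X ^ (d * P.1.natDegree) := by
  unfold ptFactor
  rw [map_sub, map_one, map_mul, PowerSeries.map_C, chi_mod hP, map_pow, PowerSeries.map_X,
    PowerSeries.C.map_one, one_mul, neg_eq_two]

/-- The Euler product over the closed points of the affine line. -/
noncomputable def locA (h : Polynomial F) (d : ℕ) : PowerSeries ℤ :=
  eulerProd (fun P : MI F => d * P.1.natDegree) (fun P => ptFactor h d P)

theorem finite_d [Finite F] {d : ℕ} (hd : 0 < d) (n : ℕ) :
    {P : MI F | d * P.1.natDegree ≤ n}.Finite :=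
  (finite_deg_le n).subset fun P hP => (Nat.le_mul_of_pos_left _ hd).trans hP

theorem locA_dvd [Finite F] (h : Polynomial F) {d : ℕ} (hd : 0 < d) :
    (X : PowerSeries ℤ) ^ d ∣ locA h d - 1 :=
  euler_one_mod (finite_d hd) (fun P => ptFactor_dvd h d P) d fun P =>
    (pow_dvd_pow _ (Nat.le_mul_of_pos_right _ (MI.deg_pos P))).trans (ptFactor_dvd h d P)

/-- the local identity -/
theorem locA_mod [Finite F] (hF : ((Nat.card F : ℕ) : ZMod 2) = 1) {h : Polynomial F} (h0 : h ≠ 0)
    {d : ℕ} (hd : 0 < d) :
    red2 (locA h d) * ∏ P ∈ facs h, (1 + X ^ (d * P.1.natDegree)) = 1 + X ^ d := by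
  have h1 : ∀ P : MI F, (X : PowerSeries (ZMod 2)) ^ (d * P.1.natDegree) ∣
      (1 + X ^ (d * P.1.natDegree)) - 1 := fun P => dvd_one_add le_rfl
  have h2 : ∀ P : MI F, (X : PowerSeries (ZMod 2)) ^ (d * P.1.natDegree) ∣
      red2 (ptFactor h d P) - 1 := fun P => by
    have h3 := map_dvd red2 (ptFactor_dvd h d P)
    rwa [map_sub, map_one, map_pow, PowerSeries.map_X] at h3
  have key := fin_factor (finite_d hd) h1 h2 (facs h) (fun P hP => by
    rw [red2_ptFactor (fun hPh => hP ((mem_facs h0 P).2 hPh))])
  have h4 : ∏ P ∈ facs h, red2 (ptFactor h d P) = 1 :=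
    Finset.prod_eq_one fun P hP => red2_ptFactor_dvd ((mem_facs h0 P).1 hP)
  rw [h4, mul_one] at key
  have h5 : red2 (locA h d) = eulerProd (fun P : MI F => d * P.1.natDegree)
      (fun P => red2 (ptFactor h d P)) := by
    unfold locA
    exact map_eulerProd (finite_d hd) _
  rw [h5, ← key]
  have h6 := euler_irr (F := F) (ZMod 2)
  have h7 := expand_eulerProd (R := ZMod 2) (d := fun P : MI F => P.1.natDegree)
    (fun n => finite_deg_le (F := F) n) hd.ne' (f := fun P => 1 - X ^ P.1.natDegree) (fun P => by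
      rw [sub_right_comm, sub_self, zero_sub]; exact (dvd_neg).2 dvd_rfl)
  rw [h6, hF] at h7
  have h8 : (fun P : MI F => (1 + X ^ (d * P.1.natDegree) : PowerSeries (ZMod 2))) =
      fun P : MI F => expand d hd.ne' (1 - X ^ P.1.natDegree) := by
    funext P
    rw [map_sub, map_one, map_pow, expand_X, ← pow_mul, neg_eq_two]
  rw [h8, ← h7, PowerSeries.C.map_one, one_mul, map_sub, map_one, expand_X, neg_eq_two]

end loc

end Pool.Agent.W313.Hyp
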